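import Pool.Agent.Work.MP_98fcd2_al.Maximal

/-!
# A two-generated soluble group of derived length three which is not FIG

Let `V` be the direct sum of copies of the field with three elements indexed by the integers, let
`t` be the shift and `a` the diagonal operator whose `n`-th entry is `-1` when `n` is a power of
four and `1` otherwise. The group `G` of automorphisms of `V × V` generated by
`x : (u, v) ↦ (a u, v)` and `y : (u, v) ↦ (t u + v, v)` is soluble of derived length at most three.
Each finite subset of `G` lies in the union of the conjugates of the stabiliser of a point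
`(0, e i - e j)`, a maximal subgroup of infinite index.
-/

set_option autoImplicit false

namespace Pool.Agent.Results.MP_98fcd2_al.DerivedLengthThree

open Pool.Agent.Work.MP_98fcd2_al

/-- `S` invariably generates `G`: for every function `g : S → G` the conjugates
`g(s)⁻¹ s g(s)`, `s ∈ S`, generate `G`. -/
def InvariablyGenerates {G : Type*} [Group G] (S : Set G) : Prop :=
  ∀ g : S → G, Subgroup.closure (Set.range fun s : S => (g s)⁻¹ * (s : G) * g s) = ⊤

/-- `G` is FIG: some finite subset invariably generates it. -/
def FIG (G : Type*) [Group G] : Prop :=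
  ∃ S : Set G, S.Finite ∧ InvariablyGenerates S

theorem result : ∃ (G : Type) (_ : Group G),
    -- `G` is generated by two elements, one of them an involution
    (∃ x y : G, x ^ 2 = 1 ∧ Subgroup.closure {x, y} = ⊤) ∧
    -- `G` is soluble of derived length at most three, its second derived group has exponent three
    derivedSeries G 3 = ⊥ ∧ (∀ g ∈ derivedSeries G 2, g ^ 3 = 1) ∧
    -- `G` is not FIG
    ¬ FIG G ∧
    -- each finite subset is covered by the conjugates of one maximal subgroup of infinite index
    ∀ S : Set G, S.Finite → ∃ M : Subgroup G, IsCoatom M ∧ M.index = 0 ∧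
      ∀ s ∈ S, ∃ g : G, g⁻¹ * s * g ∈ M := by
  have key : ∀ S : Set G, S.Finite → ∃ M : Subgroup G, IsCoatom M ∧ M.index = 0 ∧
      ∀ s ∈ S, ∃ g : G, g⁻¹ * s * g ∈ M := by
    intro S hS
    obtain ⟨i, j, hij, h⟩ := finite_subset_St S hS
    exact ⟨St i j, St_isCoatom hij, St_index hij, h⟩
  refine ⟨G, inferInstance, two_gen, derived.2, derived.1, ?_, key⟩
  rintro ⟨S, hS, hgen⟩
  obtain ⟨M, hM, -, h⟩ := key S hS
  choose g hg using fun s : S => h s s.2
  have h1 := hgen g
  apply hM.1
  rw [eq_top_iff, ← h1, Subgroup.closure_le]
  rintro _ ⟨s, rfl⟩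
  exact hg s

end Pool.Agent.Results.MP_98fcd2_al.DerivedLengthThree
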